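import Pool.Agent.Results.MP_5d2531_al.BlockTriangular
import Pool.Agent.V11298.NCM.Count

/-!
# `n`-central polynomials have at least `2 ^ n` monomials

Let `n` be an odd prime and `K` an infinite field.  Every nonempty word which occurs in an
`n`-central polynomial for `M_n(K)` has at least `2 ^ n` rearrangements (itself included) which
occur in the polynomial.  So an `n`-central polynomial has at least `2 ^ n` monomials, even in each
of its multihomogeneous components of positive degree.

The first part of the proof is the starting result `BlockTriangular`: up to its constant term an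
`n`-central polynomial vanishes on the upper triangular matrices.  The second part is about the
polynomials `g` which vanish on the upper triangular `n × n` matrices.  If two different words
`p x v` and `p y v'` occur in `g`, where `p` is the longest common prefix of all the rearrangements
occurring in `g`, then the coefficients of the words `p x u` form a polynomial which vanishes on the
upper triangular matrices of size `n - 1`; induction.
-/

set_option autoImplicit false

namespace Pool.Agent.Results.MP_5d2531_al.ManyMonomials

open Pool.Agent.H552R3.PC Pool.Agent.TH82.NC Pool.Agent.V11298.NCM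

/-- Every value of `f` on `n × n` matrices over `K` is a scalar matrix. -/
def ScalarValued {K : Type*} [Field K] {σ : Type*} (n : ℕ) (f : FreeAlgebra K σ) : Prop :=
  ∀ X : σ → Matrix (Fin n) (Fin n) K, ∃ c : K, FreeAlgebra.lift K X f = Matrix.scalar (Fin n) c

/-- `f` is central for `M_n(K)`: all values are scalar and `f` is not identically zero. -/
def IsCentral {K : Type*} [Field K] {σ : Type*} (n : ℕ) (f : FreeAlgebra K σ) : Prop :=
  ScalarValued n f ∧ ∃ X : σ → Matrix (Fin n) (Fin n) K, FreeAlgebra.lift K X f ≠ 0

/-- `f` is `ν`-central for `M_n(K)`: `ν` is the least positive integer with `f ^ ν` central. -/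
def IsNuCentral {K : Type*} [Field K] {σ : Type*} (n ν : ℕ) (f : FreeAlgebra K σ) : Prop :=
  0 < ν ∧ IsCentral n (f ^ ν) ∧ ∀ μ : ℕ, 0 < μ → IsCentral n (f ^ μ) → ν ≤ μ

/-- The coefficient of the word `l` in `f`. -/
noncomputable def coef {K : Type*} [Field K] {σ : Type*} (f : FreeAlgebra K σ) (l : List σ) : K :=
  (FreeAlgebra.equivMonoidAlgebraFreeMonoid f).coeff (FreeMonoid.ofList l)

/-- the coefficients of a polynomial as a finitely supported function on words -/
noncomputable def coefs {K : Type*} [Field K] {σ : Type*} (f : FreeAlgebra K σ) : List σ →₀ K :=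
  Finsupp.equivMapDomain FreeMonoid.toList (FreeAlgebra.equivMonoidAlgebraFreeMonoid f).coeff

theorem coefs_apply {K : Type*} [Field K] {σ : Type*} (f : FreeAlgebra K σ) (l : List σ) :
    coefs f l = coef f l := by
  rw [coefs, Finsupp.equivMapDomain_apply]
  rfl

theorem ev_coefs {K : Type*} [Field K] {σ : Type*} {A : Type*} [Ring A] [Algebra K A]
    (X : σ → A) (f : FreeAlgebra K σ) : ev X (coefs f) = FreeAlgebra.lift K X f := by
  classical
  obtain ⟨g, rfl⟩ := (FreeAlgebra.equivMonoidAlgebraFreeMonoid (R := K) (X := σ)).symm.surjective f
  unfold coefs ev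
  rw [AlgEquiv.apply_symm_apply]
  induction g using MonoidAlgebra.induction_linear with
  | zero => simp
  | add g h hg hh =>
    rw [map_add, map_add, ← hg, ← hh, MonoidAlgebra.coeff_add]
    rw [← Finsupp.sum_add_index']
    · congr 1
      ext l
      simp [Finsupp.equivMapDomain_apply]
    · intro w; simp
    · intro w a b; rw [add_smul]
  | single w c =>
    rw [lift_symm_single, MonoidAlgebra.coeff_single, Finsupp.equivMapDomain_single,
      Finsupp.sum_single_index (by simp)]

/-- **Many monomials.**  Let `n` be an odd prime, `K` an infinite field (of any characteristic) and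
`f` an `n`-central polynomial for `M_n(K)`.  For every nonempty word `w` which occurs in `f` there
are at least `2 ^ n` words which are rearrangements of `w` and occur in `f`; and some nonempty word
occurs in `f`. -/
theorem result {K : Type*} [Field K] [Infinite K] {σ : Type*} (n : ℕ)
    (hn : n.Prime) (hn2 : n ≠ 2) (f : FreeAlgebra K σ) (hcen : IsNuCentral n n f) :
    (∃ w : List σ, w ≠ [] ∧ coef f w ≠ 0) ∧
    ∀ w : List σ, w ≠ [] → coef f w ≠ 0 →
      2 ^ n ≤ {l : List σ | l.Perm w ∧ coef f l ≠ 0}.ncard := by
  classical
  have hB := Pool.Agent.Results.MP_5d2531_al.BlockTriangular.result n hn hn2 f hcen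
  set c := coef f [] with hc
  set g := f - algebraMap K (FreeAlgebra K σ) c with hg
  have hcoef : ∀ l : List σ, l ≠ [] → coef g l = coef f l := fun l hl =>
    Pool.Agent.Results.MP_5d2531_al.BlockTriangular.cf_sub f c l hl
  refine ⟨?_, ?_⟩
  · by_contra hcon
    push Not at hcon
    -- then `f` is a constant
    have h1 : f = algebraMap K (FreeAlgebra K σ) c := by
      apply FreeAlgebra.equivMonoidAlgebraFreeMonoid.injective
      rw [AlgEquiv.commutes]
      apply MonoidAlgebra.coeff_injective
      ext w
      rw [MonoidAlgebra.coe_algebraMap]
      simp only [Function.comp_apply, MonoidAlgebra.coeff_single]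
      rw [Finsupp.single_apply]
      by_cases hw : (1 : FreeMonoid σ) = w
      · rw [if_pos hw, ← hw]
        rfl
      · rw [if_neg hw]
        exact hcon (FreeMonoid.toList w) (fun h => hw (by rw [← FreeMonoid.ofList_toList w, h]; rfl))
    obtain ⟨h2, ⟨h3, X, hX⟩, h4⟩ := hcen
    have h5 : IsCentral n (f ^ 1) := by
      rw [pow_one]
      refine ⟨fun Y => ⟨c, ?_⟩, X, ?_⟩
      · rw [h1, AlgHom.commutes]
        rfl
      · intro h6
        apply hX
        rw [map_pow, h6, zero_pow hn.ne_zero]
    have h6 := h4 1 one_pos h5
    have := hn.two_le
    omega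
  · intro w hw hwf
    obtain ⟨m, rfl⟩ : ∃ m, n = 1 + m := ⟨n - 1, by have := hn.two_le; omega⟩
    have hm : 0 < m := by have := hn.two_le; omega
    -- `g` vanishes on the upper triangular matrices
    have hvan : Van (1 + m) (coefs g) := by
      intro X hX
      rw [ev_coefs, hg, map_sub, AlgHom.commutes, sub_eq_zero]
      -- transport along a bijection
      have trans : ∀ e : Fin 1 ⊕ Fin m ≃ Fin (1 + m),
          FreeAlgebra.lift K (fun s => (X s).submatrix e e) f =
            Matrix.scalar (Fin 1 ⊕ Fin m) c → FreeAlgebra.lift K X f =
              algebraMap K (Matrix (Fin (1 + m)) (Fin (1 + m)) K) c := by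
        intro e he
        have h1 : FreeAlgebra.lift K (fun s => (X s).submatrix e e) f =
            (Matrix.reindexAlgEquiv K K e.symm) (FreeAlgebra.lift K X f) := by
          have h2 : ((Matrix.reindexAlgEquiv K K e.symm).toAlgHom.comp (FreeAlgebra.lift K X)) =
              FreeAlgebra.lift K (fun s => (X s).submatrix e e) := by
            apply FreeAlgebra.hom_ext
            funext s
            simp only [Function.comp_apply, AlgHom.comp_apply, FreeAlgebra.lift_ι_apply]
            rfl
          rw [← h2]
          rfl
        rw [h1] at he
        have h3 : Matrix.scalar (Fin 1 ⊕ Fin m) c = (Matrix.reindexAlgEquiv K K e.symm)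
            (algebraMap K (Matrix (Fin (1 + m)) (Fin (1 + m)) K) c) := by
          rw [AlgEquiv.commutes]
          rfl
        rw [h3] at he
        exact (Matrix.reindexAlgEquiv K K e.symm).injective he
      rcases hB.1 1 m one_pos hm rfl with h1 | h1
      · apply trans finSumFinEquiv
        have h2 : ∀ s, (X s).submatrix finSumFinEquiv finSumFinEquiv = Matrix.fromBlocks
            ((X s).submatrix finSumFinEquiv finSumFinEquiv).toBlocks₁₁
            ((X s).submatrix finSumFinEquiv finSumFinEquiv).toBlocks₁₂ 0
            ((X s).submatrix finSumFinEquiv finSumFinEquiv).toBlocks₂₂ := by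
          intro s
          conv_lhs => rw [← Matrix.fromBlocks_toBlocks ((X s).submatrix finSumFinEquiv
            finSumFinEquiv)]
          congr 1
          ext i j
          rw [Matrix.toBlocks₂₁, Matrix.of_apply, Matrix.submatrix_apply, Matrix.zero_apply]
          apply hX
          rw [Fin.lt_def]
          simp only [finSumFinEquiv_apply_left, finSumFinEquiv_apply_right, Fin.val_castAdd,
            Fin.val_natAdd]
          omega
        have h3 : (fun s => (X s).submatrix finSumFinEquiv finSumFinEquiv) = fun s =>
            Matrix.fromBlocks ((X s).submatrix finSumFinEquiv finSumFinEquiv).toBlocks₁₁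
              ((X s).submatrix finSumFinEquiv finSumFinEquiv).toBlocks₁₂ 0
              ((X s).submatrix finSumFinEquiv finSumFinEquiv).toBlocks₂₂ := funext h2
        rw [h3]
        exact h1 _ _ _
      · apply trans (finSumFinEquiv.trans Fin.revPerm)
        have h2 : ∀ s, (X s).submatrix (finSumFinEquiv.trans Fin.revPerm)
            (finSumFinEquiv.trans Fin.revPerm) = Matrix.fromBlocks
            ((X s).submatrix (finSumFinEquiv.trans Fin.revPerm)
              (finSumFinEquiv.trans Fin.revPerm)).toBlocks₁₁ 0
            ((X s).submatrix (finSumFinEquiv.trans Fin.revPerm)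
              (finSumFinEquiv.trans Fin.revPerm)).toBlocks₂₁
            ((X s).submatrix (finSumFinEquiv.trans Fin.revPerm)
              (finSumFinEquiv.trans Fin.revPerm)).toBlocks₂₂ := by
          intro s
          conv_lhs => rw [← Matrix.fromBlocks_toBlocks ((X s).submatrix
            (finSumFinEquiv.trans Fin.revPerm) (finSumFinEquiv.trans Fin.revPerm))]
          congr 1
          ext i j
          rw [Matrix.toBlocks₁₂, Matrix.of_apply, Matrix.submatrix_apply, Matrix.zero_apply]
          apply hX
          rw [Fin.lt_def]
          simp only [Equiv.trans_apply, finSumFinEquiv_apply_left, finSumFinEquiv_apply_right,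
            Fin.revPerm_apply, Fin.val_rev, Fin.val_castAdd, Fin.val_natAdd]
          omega
        have h3 : (fun s => (X s).submatrix (finSumFinEquiv.trans Fin.revPerm)
            (finSumFinEquiv.trans Fin.revPerm)) = _ := funext h2
        rw [h3]
        exact h1 _ _ _
    have hcount := count (1 + m) (coefs g) hvan w (by rw [coefs_apply, hcoef w hw]; exact hwf)
    refine hcount.trans (le_of_eq ?_)
    rw [← Set.ncard_coe_finset]
    congr 1
    ext l
    rw [Finset.mem_coe, Finset.mem_filter, Finsupp.mem_support_iff, coefs_apply, cont_eq_iff,
      Set.mem_ofPred_eq]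
    constructor
    · rintro ⟨h1, h2⟩
      have h3 : l ≠ [] := by
        rintro rfl
        exact hw h2.symm.eq_nil
      rw [hcoef l h3] at h1
      exact ⟨h2, h1⟩
    · rintro ⟨h1, h2⟩
      have h3 : l ≠ [] := by
        rintro rfl
        exact hw h1.symm.eq_nil
      rw [hcoef l h3]
      exact ⟨h2, h1⟩

end Pool.Agent.Results.MP_5d2531_al.ManyMonomials
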